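import Pool.Agent.Helper70.MM.Goals3

/-!
Project MM, goal `DERV2`.
-/

open MeasureTheory Set Metric
open scoped ENNReal RealInnerProductSpace Topology
open Pool.Agent.Results.MP_91ee6f_gt

namespace Pool.Agent.Helper56.MM

/-- `f(ρ) = e^{-ℓρ}/ρ`. -/
private noncomputable def f1 (l r : ℝ) : ℝ := Real.exp (-(l * r)) / r

/-- The ratio of derivatives. -/
private noncomputable def mm (l c r : ℝ) : ℝ :=
  Real.exp (-(l * r)) * (1 + l * r) * (r ^ 2 + c) ^ 2 / (2 * r ^ 3)

private theorem hasDeriv_f1 (l r : ℝ) (hr : 0 < r) :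
    HasDerivAt (f1 l) (-(Real.exp (-(l * r)) * (l * r + 1) / r ^ 2)) r := by
  have h1 : HasDerivAt (fun x : ℝ => -(l * x)) (-l) r := by
    have h : HasDerivAt (fun x : ℝ => -(l * x)) (-(l * 1)) r :=
      ((hasDerivAt_id r).const_mul l).neg
    rwa [mul_one] at h
  have h2 := h1.exp
  have h3 := h2.div (hasDerivAt_id r) hr.ne'
  have h4 : HasDerivAt (f1 l) _ r := h3
  refine h4.congr_deriv ?_
  simp only [id]
  field_simp
  ring

private theorem hasDeriv_phi (c r : ℝ) (hc : 0 < c) :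
    HasDerivAt (fun x : ℝ => 1 / (x ^ 2 + c)) (-(2 * r / (r ^ 2 + c) ^ 2)) r := by
  have h1 : HasDerivAt (fun x : ℝ => x ^ 2 + c) (2 * r) r := by
    simpa using (hasDerivAt_pow 2 r).add_const c
  have h2 : (r ^ 2 + c : ℝ) ≠ 0 := by positivity
  have h3 := (hasDerivAt_const r (1 : ℝ)).div h1 h2
  refine h3.congr_deriv ?_
  ring

private theorem hasDeriv_mm (l c r : ℝ) (hr : 0 < r) :
    HasDerivAt (mm l c) (Real.exp (-(l * r)) * (r ^ 2 + c) / (2 * r ^ 4) *
      ((1 + l * r) * (r ^ 2 - 3 * c) - l ^ 2 * r ^ 2 * (r ^ 2 + c))) r := by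
  have h1 : HasDerivAt (fun x : ℝ => -(l * x)) (-l) r := by
    have h : HasDerivAt (fun x : ℝ => -(l * x)) (-(l * 1)) r :=
      ((hasDerivAt_id r).const_mul l).neg
    rwa [mul_one] at h
  have h2 := h1.exp
  have h3 : HasDerivAt (fun x : ℝ => 1 + l * x) l r := by
    simpa using ((hasDerivAt_id r).const_mul l).const_add 1
  have h4 : HasDerivAt (fun x : ℝ => (x ^ 2 + c) ^ 2) (2 * (r ^ 2 + c) * (2 * r)) r := by
    have h : HasDerivAt (fun x : ℝ => x ^ 2 + c) (2 * r) r := by
      simpa using (hasDerivAt_pow 2 r).add_const c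
    have h' : HasDerivAt (fun x : ℝ => (x ^ 2 + c) ^ 2) _ r := h.pow 2
    refine h'.congr_deriv ?_
    norm_num
  have h5 : HasDerivAt (fun x : ℝ => 2 * x ^ 3) (2 * (3 * r ^ 2)) r := by
    simpa using (hasDerivAt_pow 3 r).const_mul (2 : ℝ)
  have h6 : (2 * r ^ 3 : ℝ) ≠ 0 := by positivity
  have h7 := ((h2.mul h3).mul h4).div h5 h6
  have h8 : HasDerivAt (mm l c) _ r := h7
  refine h8.congr_deriv ?_
  simp only [Pi.mul_apply]
  field_simp
  ring

private theorem poly_ineq (l r : ℝ) (hl : 0 < l) (hl1 : l ≤ 1) (hr : 1 ≤ r) (hr2 : r ^ 2 ≤ 2) :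
    l ^ 2 * r ^ 2 * (r ^ 2 + (1 / 4 - 9 / 50 * l ^ 2)) ≤
      (1 + l * r) * (r ^ 2 - 3 * (1 / 4 - 9 / 50 * l ^ 2)) := by
  have h3 : 0 ≤ 27 / 50 * r * (l ^ 3 - 2 * l ^ 2 + l) := by
    have : l ^ 3 - 2 * l ^ 2 + l = l * (l - 1) ^ 2 := by ring
    rw [this]; positivity
  have h4 : 0 ≤ 9 / 50 * r ^ 2 * (l ^ 4 - 3 * l ^ 2 + 2 * l) := by
    have : l ^ 4 - 3 * l ^ 2 + 2 * l = l * ((l - 1) ^ 2 * (l + 2)) := by ring
    rw [this]; positivity
  have hq : 0 ≤ (r ^ 2 - 3 / 4) + l * (r * (r ^ 2 - 3 / 4) - 27 / 50 * r - 9 / 25 * r ^ 2) +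
      l ^ 2 * (27 / 50 - r ^ 2 * (r ^ 2 + 1 / 4) + 27 / 25 * r + 27 / 50 * r ^ 2) := by
    have h1 : 0 ≤ (1 - l) := by linarith
    have h2 : 0 ≤ r - 1 := by linarith
    have h5 : 0 ≤ 2 - r ^ 2 := by linarith
    nlinarith [mul_nonneg h1 h2, mul_nonneg h1 h5, mul_nonneg hl.le h2, mul_nonneg hl.le h5,
      mul_nonneg (mul_nonneg hl.le h1) h2, mul_nonneg (mul_nonneg hl.le h1) h5, sq_nonneg (l - 1/2),
      mul_nonneg (mul_nonneg hl.le hl.le) h5, mul_nonneg (mul_nonneg hl.le hl.le) h2,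
      mul_nonneg (mul_nonneg (mul_nonneg hl.le hl.le) h5) h2, mul_nonneg h2 h5, sq_nonneg (l-1)]
  nlinarith [h3, h4, hq]

private theorem mm_mono (l : ℝ) (hl : 0 < l) (hl1 : l ≤ 1) :
    MonotoneOn (mm l (1 / 4 - 9 / 50 * l ^ 2)) (Icc 1 (Real.sqrt 2)) := by
  have h2 : Real.sqrt 2 ^ 2 = 2 := Real.sq_sqrt (by norm_num)
  have hc : 0 < 1 / 4 - 9 / 50 * l ^ 2 := by nlinarith
  apply monotoneOn_of_deriv_nonneg (convex_Icc _ _)
  · intro r hr
    exact (hasDeriv_mm l _ r (by linarith [hr.1])).continuousAt.continuousWithinAt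
  · intro r hr
    rw [interior_Icc] at hr
    exact (hasDeriv_mm l _ r (by linarith [hr.1])).differentiableAt.differentiableWithinAt
  · intro r hr
    rw [interior_Icc] at hr
    rw [(hasDeriv_mm l _ r (by linarith [hr.1])).deriv]
    have hr1 : 1 < r := hr.1
    have hr2 : r ^ 2 ≤ 2 := by
      have := hr.2
      nlinarith [Real.sqrt_nonneg 2]
    refine mul_nonneg ?_ ?_
    · have : 0 < r ^ 2 + (1 / 4 - 9 / 50 * l ^ 2) := by positivity
      positivity
    · have := poly_ineq l r hl hl1 hr1.le hr2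
      linarith

/-- `y sinh x - sinh (x y) ≥ x³ y (1 - y²)/6`. -/
private theorem sinh_gap (x y : ℝ) (hx : 0 ≤ x) (hy : 0 ≤ y) (hy1 : y ≤ 1) :
    x ^ 3 * y * (1 - y ^ 2) / 6 ≤ y * Real.sinh x - Real.sinh (x * y) := by
  have hG : ∀ t : ℝ, HasDerivAt
      (fun t : ℝ => y * Real.sinh t - Real.sinh (t * y) - t ^ 3 * y * (1 - y ^ 2) / 6)
      (y * Real.cosh t - Real.cosh (t * y) * y - 3 * t ^ 2 * y * (1 - y ^ 2) / 6) t := by
    intro t
    have a1 := (Real.hasDerivAt_sinh t).const_mul y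
    have a2 : HasDerivAt (fun t : ℝ => t * y) y t := by
      simpa using (hasDerivAt_id t).mul_const y
    have a3 : HasDerivAt (fun t : ℝ => Real.sinh (t * y)) (Real.cosh (t * y) * y) t := a2.sinh
    have a4 : HasDerivAt (fun t : ℝ => t ^ 3 * y * (1 - y ^ 2) / 6)
        (3 * t ^ 2 * y * (1 - y ^ 2) / 6) t := by
      have := (((hasDerivAt_pow 3 t).mul_const y).mul_const (1 - y ^ 2)).div_const 6
      refine this.congr_deriv ?_
      norm_num
    exact (a1.sub a3).sub a4
  have hmono : MonotoneOn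
      (fun t : ℝ => y * Real.sinh t - Real.sinh (t * y) - t ^ 3 * y * (1 - y ^ 2) / 6)
      (Ici 0) := by
    apply monotoneOn_of_deriv_nonneg (convex_Ici _)
    · intro t _
      exact (hG t).continuousAt.continuousWithinAt
    · intro t _
      exact (hG t).differentiableAt.differentiableWithinAt
    · intro t ht
      rw [interior_Ici] at ht
      rw [(hG t).deriv]
      have ht0 : 0 < t := ht
      have hty : t * y ≤ t := by nlinarith
      have hty0 : 0 ≤ t * y := by positivity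
      -- `cosh t - cosh (t y) = 2 sinh ((t + ty)/2) sinh ((t - ty)/2)`
      have e1 : Real.cosh t - Real.cosh (t * y) =
          2 * (Real.sinh ((t + t * y) / 2) * Real.sinh ((t - t * y) / 2)) := by
        have b1 : Real.cosh t = Real.cosh ((t + t * y) / 2 + (t - t * y) / 2) := by
          congr 1; ring
        have b2 : Real.cosh (t * y) = Real.cosh ((t + t * y) / 2 - (t - t * y) / 2) := by
          congr 1; ring
        rw [b1, b2, Real.cosh_add, Real.cosh_sub]
        ring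
      have e2 : (t + t * y) / 2 ≤ Real.sinh ((t + t * y) / 2) :=
        Real.self_le_sinh_iff.2 (by positivity)
      have e3 : (t - t * y) / 2 ≤ Real.sinh ((t - t * y) / 2) :=
        Real.self_le_sinh_iff.2 (by linarith)
      have e4 : (t + t * y) / 2 * ((t - t * y) / 2) ≤
          Real.sinh ((t + t * y) / 2) * Real.sinh ((t - t * y) / 2) :=
        mul_le_mul e2 e3 (by linarith) (le_trans (by positivity) e2)
      have e5 : y * Real.cosh t - Real.cosh (t * y) * y - 3 * t ^ 2 * y * (1 - y ^ 2) / 6 =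
          y * ((Real.cosh t - Real.cosh (t * y)) - t ^ 2 * (1 - y ^ 2) / 2) := by ring
      rw [e5, e1]
      refine mul_nonneg hy ?_
      nlinarith [e4]
  have h0 := hmono (mem_Ici.2 le_rfl) (mem_Ici.2 hx) hx
  simp only [Real.sinh_zero, zero_mul, mul_zero, sub_zero] at h0
  have h1 : (0 : ℝ) ^ 3 * y * (1 - y ^ 2) / 6 = 0 := by ring
  rw [h1] at h0
  linarith

/-- `sinh x ≤ (8/7) x` on `[0, 1/2]`. -/
private theorem sinh_le (x : ℝ) (hx : 0 ≤ x) (hx1 : x ≤ 1 / 2) :
    Real.sinh x ≤ 8 / 7 * x := by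
  have hG : ∀ t : ℝ, HasDerivAt (fun t : ℝ => 8 / 7 * t - Real.sinh t)
      (8 / 7 - Real.cosh t) t := by
    intro t
    have a1 : HasDerivAt (fun t : ℝ => 8 / 7 * t) (8 / 7 : ℝ) t := by
      simpa using (hasDerivAt_id t).const_mul (8 / 7 : ℝ)
    exact a1.sub (Real.hasDerivAt_sinh t)
  have hmono : MonotoneOn (fun t : ℝ => 8 / 7 * t - Real.sinh t) (Icc 0 (1 / 2)) := by
    apply monotoneOn_of_deriv_nonneg (convex_Icc _ _)
    · intro t _
      exact (hG t).continuousAt.continuousWithinAt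
    · intro t _
      exact (hG t).differentiableAt.differentiableWithinAt
    · intro t ht
      rw [interior_Icc] at ht
      rw [(hG t).deriv]
      have h1 := Real.cosh_le_exp_half_sq t
      have h2 : t ^ 2 / 2 ≤ 1 / 8 := by
        have := ht.1; have := ht.2
        nlinarith
      have h3 : Real.exp (t ^ 2 / 2) ≤ Real.exp (1 / 8) := Real.exp_le_exp.2 h2
      have h4 : Real.exp (1 / 8) ≤ 8 / 7 := by
        have h5 : 1 - 1 / 8 ≤ Real.exp (-(1 / 8 : ℝ)) := Real.one_sub_le_exp_neg _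
        rw [Real.exp_neg] at h5
        have h6 : 0 < Real.exp (1 / 8 : ℝ) := Real.exp_pos _
        have h7 : (1 - 1 / 8 : ℝ) * Real.exp (1 / 8) ≤ 1 := by
          have := mul_le_mul_of_nonneg_right h5 h6.le
          rwa [inv_mul_cancel₀ h6.ne'] at this
        linarith
      linarith
  have h0 := hmono ⟨le_rfl, by norm_num⟩ ⟨hx, hx1⟩ hx
  simp only [Real.sinh_zero, mul_zero, sub_zero] at h0
  linarith

private theorem num1 (l s : ℝ) (hl : 0 < l) (hl1 : l ≤ 1) (hs : 0 < s)
    (hs2 : s ≤ 14143 / 10000) : 1 + l * s ≤ 24143 / 10000 := by nlinarith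

private theorem num2 (c : ℝ) (hc : 7 / 100 ≤ c) : 2 + c ≤ 119 / 100 * (5 / 4 + c) ^ 2 := by
  nlinarith

private theorem num3 (p c : ℝ) (hp : 0 ≤ p) (hp4 : p ≤ 1 / 4) (hc : 0 < c) :
    (5 / 4 + c) ^ 2 ≤ p ^ 2 + (1 + c) * (1 - 2 * p) + (1 + c) ^ 2 := by
  have : 0 ≤ (1 / 4 - p) * (2 * (1 + c) - 1 / 4 - p) := mul_nonneg (by linarith) (by linarith)
  nlinarith [this]

theorem dERV2 : Pool.Agent.Helper70.MM.DERV2 := by
  intro l u v hl hl1 hv hvu huv
  unfold Pool.Agent.Helper70.MM.ff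
  have h22 : Real.sqrt 2 ^ 2 = 2 := Real.sq_sqrt (by norm_num)
  set s2 := Real.sqrt 2 with hs2
  set r1 := Real.sqrt (1 + u ^ 2) with hr1
  set r0 := Real.sqrt (1 + v ^ 2) with hr0
  have hr1s : r1 ^ 2 = 1 + u ^ 2 := Real.sq_sqrt (by positivity)
  have hr0s : r0 ^ 2 = 1 + v ^ 2 := Real.sq_sqrt (by positivity)
  have hu1 : u ≤ 1 := by linarith
  have hu0 : 0 ≤ u := by linarith
  have h01 : r0 ≤ r1 := Real.sqrt_le_sqrt (by nlinarith)
  have h12 : r1 ≤ s2 := Real.sqrt_le_sqrt (by nlinarith)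
  have h10 : 1 ≤ r0 := by
    rw [hr0]; exact Real.le_sqrt_of_sq_le (by nlinarith)
  have hs2b : s2 ≤ 14143 / 10000 := by
    rw [hs2]; exact Real.sqrt_le_sqrt (show (2 : ℝ) ≤ (14143 / 10000) ^ 2 by norm_num) |>.trans
      (le_of_eq (Real.sqrt_sq (by norm_num)))
  have hs20 : 0 < s2 := by linarith
  have hl2 : l ^ 2 ≤ 1 := by nlinarith
  have hmono := mm_mono l hl hl1
  set c := 1 / 4 - 9 / 50 * l ^ 2 with hc
  have hc7 : 7 / 100 ≤ c := by rw [hc]; linarith
  have hc0 : 0 < c := by linarith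
  have hc4 : c ≤ 1 / 4 := by rw [hc]; nlinarith [sq_nonneg l]
  set M := mm l c r1 with hM
  have hM0 : 0 ≤ M := by
    have : 0 < r1 := by linarith
    rw [hM]; unfold mm
    positivity
  have hMs : M ≤ mm l c s2 := hmono ⟨by linarith, h12⟩ ⟨by linarith, le_rfl⟩ h12
  let H : ℝ → ℝ := fun r => f1 l r - M * (1 / (r ^ 2 + c))
  have hH : ∀ r, 0 < r → HasDerivAt H (2 * r / (r ^ 2 + c) ^ 2 * (M - mm l c r)) r := by
    intro r hr
    have := (hasDeriv_f1 l r hr).sub ((hasDeriv_phi c r hc0).const_mul M)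
    refine this.congr_deriv ?_
    unfold mm
    have : 0 < r ^ 2 + c := by positivity
    field_simp
    ring
  have hup : H r0 ≤ H r1 := by
    have hmo : MonotoneOn H (Icc 1 r1) := by
      apply monotoneOn_of_deriv_nonneg (convex_Icc _ _)
      · intro r hr
        exact (hH r (by linarith [hr.1])).continuousAt.continuousWithinAt
      · intro r hr
        rw [interior_Icc] at hr
        exact (hH r (by linarith [hr.1])).differentiableAt.differentiableWithinAt
      · intro r hr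
        rw [interior_Icc] at hr
        rw [(hH r (by linarith [hr.1])).deriv]
        have hr1' : 1 < r := hr.1
        refine mul_nonneg (by positivity) ?_
        have := hmono ⟨hr.1.le, by linarith [hr.2]⟩ ⟨by linarith, h12⟩ hr.2.le
        linarith
    exact hmo ⟨h10, h01⟩ ⟨by linarith, le_refl _⟩ h01
  have hdn : H s2 ≤ H r1 := by
    have hmo : AntitoneOn H (Icc r1 s2) := by
      apply antitoneOn_of_deriv_nonpos (convex_Icc _ _)
      · intro r hr
        exact (hH r (by linarith [hr.1])).continuousAt.continuousWithinAt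
      · intro r hr
        rw [interior_Icc] at hr
        exact (hH r (by linarith [hr.1])).differentiableAt.differentiableWithinAt
      · intro r hr
        rw [interior_Icc] at hr
        rw [(hH r (by linarith [hr.1])).deriv]
        have hr1' : 0 < r := by linarith [hr.1]
        refine mul_nonpos_of_nonneg_of_nonpos (by positivity) ?_
        have := hmono ⟨by linarith, h12⟩ ⟨by linarith [hr.1], hr.2.le⟩ hr.1.le
        linarith
    exact hmo ⟨le_refl _, h12⟩ ⟨h12, le_refl _⟩ h12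
  have h3 : 0 ≤ u - v := by linarith
  have hvu' : v = 1 - u := by linarith
  -- the bracket
  have hDpos : 0 < (u ^ 2 + (1 + c)) * (v ^ 2 + (1 + c)) := by positivity
  have hbr : u * (1 / (r1 ^ 2 + c)) - v * (1 / (r0 ^ 2 + c)) - (u - v) * (1 / (s2 ^ 2 + c)) =
      (u - v) * (u * v) * (c - u * v) /
        ((2 + c) * ((u ^ 2 + (1 + c)) * (v ^ 2 + (1 + c)))) := by
    rw [hr1s, hr0s, h22]
    have g1 : 0 < 1 + u ^ 2 + c := by positivity
    have g2 : 0 < 1 + v ^ 2 + c := by positivity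
    have g3 : 0 < 2 + c := by positivity
    have g4 : 0 < u ^ 2 + (1 + c) := by positivity
    have g5 : 0 < v ^ 2 + (1 + c) := by positivity
    have e : u * (1 / (1 + u ^ 2 + c)) - v * (1 / (1 + v ^ 2 + c)) - (u - v) * (1 / (2 + c)) =
        (u * ((1 + v ^ 2 + c) * (2 + c)) - v * ((1 + u ^ 2 + c) * (2 + c)) -
          (u - v) * ((1 + u ^ 2 + c) * (1 + v ^ 2 + c))) /
          ((2 + c) * ((u ^ 2 + (1 + c)) * (v ^ 2 + (1 + c)))) := by
      rw [show u ^ 2 + (1 + c) = 1 + u ^ 2 + c by ring, show v ^ 2 + (1 + c) = 1 + v ^ 2 + c by ring]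
      field_simp
    rw [e]
    congr 1
    rw [hvu']
    ring
  have e1 : u * H r1 - v * H r0 - (u - v) * H s2 ≥ 0 := by
    nlinarith [mul_le_mul_of_nonneg_left hup hv, mul_le_mul_of_nonneg_left hdn h3]
  have e2 : u * f1 l r1 - v * f1 l r0 - (u - v) * f1 l s2 =
      (u * H r1 - v * H r0 - (u - v) * H s2) + M * (u * (1 / (r1 ^ 2 + c)) -
        v * (1 / (r0 ^ 2 + c)) - (u - v) * (1 / (s2 ^ 2 + c))) := by
    simp only [H]
    ring
  rw [hbr] at e2
  set p := u * v with hp
  have hp0 : 0 ≤ p := by positivity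
  have hp4 : p ≤ 1 / 4 := by nlinarith [sq_nonneg (u - v)]
  set y := u - v with hy
  have hy1 : y ≤ 1 := by linarith
  have hyp : 1 - y ^ 2 = 4 * p := by
    rw [hy, hp, hvu']; ring
  set F2 := f1 l s2 with hF2
  have hF20 : 0 < F2 := by rw [hF2]; unfold f1; positivity
  -- the exponentials
  set x := l / 2 with hx
  have hx0 : 0 < x := by positivity
  have hx1 : x ≤ 1 / 2 := by linarith
  set E := Real.exp (-x) with hE
  have hE0 : 0 < E := Real.exp_pos _
  have x1 : Real.exp (-(l * v)) - Real.exp (-(l * u)) = 2 * E * Real.sinh (x * y) := by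
    rw [Real.sinh_eq, hE]
    have a1 : Real.exp (-(l * v)) = Real.exp (-x) * Real.exp (x * y) := by
      rw [← Real.exp_add]; congr 1; rw [hx, hy, hvu']; ring
    have a2 : Real.exp (-(l * u)) = Real.exp (-x) * Real.exp (-(x * y)) := by
      rw [← Real.exp_add]; congr 1; rw [hx, hy, hvu']; ring
    rw [a1, a2]; ring
  have x2 : 1 - Real.exp (-l) = 2 * E * Real.sinh x := by
    rw [Real.sinh_eq, hE]
    have a1 : (1 : ℝ) = Real.exp (-x) * Real.exp x := by
      rw [← Real.exp_add]; simp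
    have a2 : Real.exp (-l) = Real.exp (-x) * Real.exp (-x) := by
      rw [← Real.exp_add]; congr 1; rw [hx]; ring
    rw [a2]
    nlinarith [a1]
  have key : F2 * Real.sinh (x * y) ≤ (u * f1 l r1 - v * f1 l r0) * Real.sinh x := by
    have hsx : 0 ≤ Real.sinh x := Real.sinh_nonneg_iff.2 hx0.le
    have k1 : y * F2 + M * (y * p * (c - p) / ((2 + c) * ((u ^ 2 + (1 + c)) * (v ^ 2 + (1 + c))))) ≤
        u * f1 l r1 - v * f1 l r0 := by linarith
    refine le_trans ?_ (mul_le_mul_of_nonneg_right k1 hsx)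
    have k2 := sinh_gap x y hx0.le h3 hy1
    rw [hyp] at k2
    have k3 := sinh_le x hx0.le hx1
    -- it remains to compare
    rcases le_or_gt p c with hpc | hpc
    · have : 0 ≤ y * p * (c - p) / ((2 + c) * ((u ^ 2 + (1 + c)) * (v ^ 2 + (1 + c)))) := by
        have : 0 ≤ c - p := by linarith
        positivity
      have k4 : 0 ≤ M * (y * p * (c - p) /
          ((2 + c) * ((u ^ 2 + (1 + c)) * (v ^ 2 + (1 + c))))) * Real.sinh x := by positivity
      have k5 : Real.sinh (x * y) ≤ y * Real.sinh x := by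
        have : 0 ≤ x ^ 3 * y * (4 * p) / 6 := by positivity
        linarith
      have k6 := mul_le_mul_of_nonneg_left k5 hF20.le
      calc F2 * Real.sinh (x * y) ≤ F2 * (y * Real.sinh x) := k6
        _ ≤ F2 * (y * Real.sinh x) + M * (y * p * (c - p) /
              ((2 + c) * ((u ^ 2 + (1 + c)) * (v ^ 2 + (1 + c))))) * Real.sinh x := by linarith
        _ = _ := by ring
    · have hms : mm l c s2 = F2 * ((1 + l * s2) * (2 + c) ^ 2 / 4) := by
        rw [hF2]
        unfold mm f1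
        rw [h22]
        have : s2 ^ 3 = 2 * s2 := by rw [pow_succ, h22]
        rw [this]
        field_simp
        ring
      have hDlow : (5 / 4 + c) ^ 2 ≤ (u ^ 2 + (1 + c)) * (v ^ 2 + (1 + c)) := by
        have : (u ^ 2 + (1 + c)) * (v ^ 2 + (1 + c)) =
            p ^ 2 + (1 + c) * (1 - 2 * p) + (1 + c) ^ 2 := by
          rw [hp, hvu']; ring
        rw [this]
        exact num3 p c hp0 hp4 hc0
      set D := (u ^ 2 + (1 + c)) * (v ^ 2 + (1 + c)) with hD
      have hD54 : 0 < (5 / 4 + c) ^ 2 := by positivity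
      have hpc' : p - c ≤ 9 / 50 * l ^ 2 := by rw [hc]; linarith
      -- `M (p - c)/((2+c) D) ≤ F2 * Q` with `Q = (1 + l s2)(2+c)(9/50) l^2 / (4 (5/4+c)^2)`
      have q1 : M * ((p - c) / ((2 + c) * D)) ≤
          F2 * ((1 + l * s2) * (2 + c) * (9 / 50 * l ^ 2) / (4 * (5 / 4 + c) ^ 2)) := by
        have g3 : 0 < 2 + c := by linarith
        have w1 : M ≤ F2 * ((1 + l * s2) * (2 + c) ^ 2 / 4) := by rw [← hms]; exact hMs
        have w2 : (p - c) / ((2 + c) * D) ≤ (9 / 50 * l ^ 2) / ((2 + c) * (5 / 4 + c) ^ 2) := by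
          apply div_le_div₀ (by positivity) hpc' (by positivity)
          exact mul_le_mul_of_nonneg_left hDlow g3.le
        have w3 : 0 ≤ (p - c) / ((2 + c) * D) := by
          have : 0 ≤ p - c := by linarith
          positivity
        calc M * ((p - c) / ((2 + c) * D))
            ≤ (F2 * ((1 + l * s2) * (2 + c) ^ 2 / 4)) *
                ((9 / 50 * l ^ 2) / ((2 + c) * (5 / 4 + c) ^ 2)) :=
              mul_le_mul w1 w2 w3 (by positivity)
          _ = F2 * ((1 + l * s2) * (2 + c) * (9 / 50 * l ^ 2) / (4 * (5 / 4 + c) ^ 2)) := by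
              field_simp
      -- numbers
      have q2 : (1 + l * s2) * (2 + c) * (9 / 50 * l ^ 2) / (4 * (5 / 4 + c) ^ 2) ≤
          7 / 48 * l ^ 2 := by
        rw [div_le_iff₀ (by positivity)]
        have w1 : 1 + l * s2 ≤ 24143 / 10000 := num1 l s2 hl hl1 hs20 hs2b
        have w2 : 2 + c ≤ 119 / 100 * (5 / 4 + c) ^ 2 := num2 c hc7
        have w3 : (1 + l * s2) * (2 + c) ≤ 24143 / 10000 * (119 / 100 * (5 / 4 + c) ^ 2) :=
          mul_le_mul w1 w2 (by linarith) (by norm_num)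
        have w4 : 0 ≤ l ^ 2 := sq_nonneg l
        have w5 := mul_le_mul_of_nonneg_right w3 (show 0 ≤ 9 / 50 * l ^ 2 by positivity)
        have w6 : 0 ≤ l ^ 2 * (5 / 4 + c) ^ 2 := by positivity
        refine w5.trans ?_
        have w7 : 24143 / 10000 * (119 / 100 * (5 / 4 + c) ^ 2) * (9 / 50 * l ^ 2) =
            24143 / 10000 * (119 / 100) * (9 / 50) * (l ^ 2 * (5 / 4 + c) ^ 2) := by ring
        have w8 : 7 / 48 * l ^ 2 * (4 * (5 / 4 + c) ^ 2) =
            7 / 12 * (l ^ 2 * (5 / 4 + c) ^ 2) := by ring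
        rw [w7, w8]
        exact mul_le_mul_of_nonneg_right (by norm_num) w6
      have q3 : M * ((p - c) / ((2 + c) * D)) ≤ F2 * (7 / 48 * l ^ 2) :=
        q1.trans (mul_le_mul_of_nonneg_left q2 hF20.le)
      have q4 : M * (y * p * (c - p) / ((2 + c) * D)) = -(y * p * (M * ((p - c) / ((2 + c) * D)))) := by
        ring
      rw [q4]
      have hyp0 : 0 ≤ y * p := by positivity
      have q5 := mul_le_mul_of_nonneg_left q3 hyp0
      have q6 : Real.sinh x * (y * p * (M * ((p - c) / ((2 + c) * D)))) ≤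
          8 / 7 * x * (y * p * (F2 * (7 / 48 * l ^ 2))) := by
        apply mul_le_mul k3 q5 _ (by positivity)
        have : 0 ≤ p - c := by linarith
        positivity
      have q7 : F2 * (x ^ 3 * y * (4 * p) / 6) ≤ F2 * (y * Real.sinh x - Real.sinh (x * y)) :=
        mul_le_mul_of_nonneg_left k2 hF20.le
      have q8 : 8 / 7 * x * (y * p * (F2 * (7 / 48 * l ^ 2))) = F2 * (x ^ 3 * y * (4 * p) / 6) := by
        have : l = 2 * x := by rw [hx]; ring
        rw [this]; ring
      rw [q8] at q6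
      have q9 := q6.trans q7
      calc F2 * Real.sinh (x * y) = F2 * (y * Real.sinh x) -
            F2 * (y * Real.sinh x - Real.sinh (x * y)) := by ring
        _ ≤ F2 * (y * Real.sinh x) -
            Real.sinh x * (y * p * (M * ((p - c) / ((2 + c) * D)))) := by linarith
        _ = _ := by ring
  have fin1 : f1 l s2 * (2 * E * Real.sinh (x * y)) ≤
      (u * f1 l r1 - v * f1 l r0) * (2 * E * Real.sinh x) := by
    have := mul_le_mul_of_nonneg_left key (show 0 ≤ 2 * E by positivity)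
    calc f1 l s2 * (2 * E * Real.sinh (x * y)) = 2 * E * (F2 * Real.sinh (x * y)) := by
          rw [hF2]; ring
      _ ≤ 2 * E * ((u * f1 l r1 - v * f1 l r0) * Real.sinh x) := this
      _ = _ := by ring
  rw [x1, x2]
  exact fin1

end Pool.Agent.Helper56.MM
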